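import Pool.Agent.Helper85.IA.St

/-! # Project IA, part N (nibble), module TDA: the tests for the degrees of `A` -/

set_option autoImplicit false

namespace Pool.Agent.Helper14.IA85

open Finset Pool.Agent.Helper93.IA Pool.Agent.Helper85.IA

variable {α β γ : Type} [Fintype α] [Fintype β] [Fintype γ] [DecidableEq α] [DecidableEq β]
  [DecidableEq γ]

private lemma yd_of {Λ ε δ d : ℝ} {n : ℕ} {A : Finset (α × β)} {B : Finset (β × γ)}
    {C : Finset (γ × α)} {x : α → β → γ → ℝ} (hε : 0 < ε) (hε' : ε ≤ 1 / 8)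
    (D : Dat Λ δ d n A B C x) : Yd ε (ε * (Λ / n)) (fun a b c => ε * x a b c) where
  e1 := by linarith
  nn a b c := mul_nonneg hε.le (D.x0 a b c)
  le a b c := mul_le_mul_of_nonneg_left (D.xl a b c) hε.le
  sA a b := by
    rw [← Finset.mul_sum]
    nlinarith [D.uA a b]
  sB b c := by
    rw [← Finset.mul_sum]
    nlinarith [D.uB b c]
  sC c a := by
    rw [← Finset.mul_sum]
    nlinarith [D.uC c a]

omit [Fintype α] in
private lemma card_row (A : Finset (α × β)) (a : α) :
    ((univ.filter fun b => (a, b) ∈ A).card : ℝ) = d1 A a := by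
  unfold d1
  norm_cast
  apply Finset.card_bij (fun b _ => (a, b))
  · intro b hb
    rw [Finset.mem_filter] at hb ⊢
    exact ⟨hb.2, rfl⟩
  · intro b _ b' _ h
    exact (Prod.ext_iff.mp h).2
  · rintro ⟨a', b⟩ hb
    rw [Finset.mem_filter] at hb
    obtain ⟨h1, h2⟩ := hb
    simp only at h2
    subst h2
    exact ⟨b, by simp [h1], rfl⟩

omit [Fintype β] in
private lemma card_col (A : Finset (α × β)) (b : β) :
    ((univ.filter fun a => (a, b) ∈ A).card : ℝ) = d2 A b := by
  unfold d2
  norm_cast
  apply Finset.card_bij (fun a _ => (a, b))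
  · intro a ha
    rw [Finset.mem_filter] at ha ⊢
    exact ⟨ha.2, rfl⟩
  · intro a _ a' _ h
    exact (Prod.ext_iff.mp h).1
  · rintro ⟨a, b'⟩ hb
    rw [Finset.mem_filter] at hb
    obtain ⟨h1, h2⟩ := hb
    simp only at h2
    subst h2
    exact ⟨a, by simp [h1], rfl⟩

private lemma card_S1 (a : α) :
    (univ.filter fun p : α × β => p.1 = a).card = Fintype.card β := by
  have h : (univ.filter fun p : α × β => p.1 = a) = univ.image fun b : β => (a, b) := by
    ext ⟨a', b⟩
    simp only [mem_filter, mem_univ, true_and, mem_image, Prod.mk.injEq]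
    constructor
    · intro h
      exact ⟨b, h.symm, rfl⟩
    · rintro ⟨b', h1, _⟩
      exact h1.symm
  rw [h, Finset.card_image_of_injective _ (fun b b' h => (Prod.ext_iff.mp h).2), card_univ]

private lemma card_S2 (b : β) :
    (univ.filter fun p : α × β => p.2 = b).card = Fintype.card α := by
  have h : (univ.filter fun p : α × β => p.2 = b) = univ.image fun a : α => (a, b) := by
    ext ⟨a, b'⟩
    simp only [mem_filter, mem_univ, true_and, mem_image, Prod.mk.injEq]
    constructor
    · intro h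
      exact ⟨a, rfl, h.symm⟩
    · rintro ⟨a', _, h1⟩
      exact h1.symm
  rw [h, Finset.card_image_of_injective _ (fun b b' h => (Prod.ext_iff.mp h).1), card_univ]

/-- mean of one term -/
private lemma term_le (hM : StKMN) {Λ ε δ d : ℝ} {n : ℕ} {A : Finset (α × β)}
    {B : Finset (β × γ)} {C : Finset (γ × α)} {x : α → β → γ → ℝ} (hε : 0 < ε)
    (hε' : ε ≤ 1 / 8) (hδ' : δ ≤ 1 / 4) (D : Dat Λ δ d n A B C x) (a : α) (b : β) :
    E (fun a b c => ε * x a b c) (fun σ => if (a, b) ∈ A then 1 - kA σ a b else 0)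
      ≤ if (a, b) ∈ A then 1 - ε / 2 else 0 := by
  by_cases hab : (a, b) ∈ A
  · simp only [hab, if_true]
    have h1 := ((hM α β γ ε (ε * (Λ / n)) (fun a b c => ε * x a b c) (yd_of hε hε' D)).1 a b).2
    rw [← Finset.mul_sum] at h1
    have h2 := D.lA a b hab
    have h3 : E (fun a b c => ε * x a b c) (fun σ => 1 - kA σ a b)
        = 1 - E (fun a b c => ε * x a b c) (fun σ => kA σ a b) := by
      unfold E
      rw [Ex_sub, Ex_one (fun i => wt_sum _ i)]
    rw [h3]
    have h4 : ε * (1 - δ) ≤ ε * ∑ c, x a b c := mul_le_mul_of_nonneg_left h2 hε.le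
    have h5 : (1 - 2 * ε) * (ε * (1 - δ)) ≤ (1 - 2 * ε) * (ε * ∑ c, x a b c) :=
      mul_le_mul_of_nonneg_left h4 (by linarith)
    have h6 : ε / 2 ≤ (1 - 2 * ε) * (ε * (1 - δ)) := by
      have h7 : (3 / 4 : ℝ) * (3 / 4) ≤ (1 - 2 * ε) * (1 - δ) :=
        mul_le_mul (by linarith) (by linarith) (by norm_num) (by linarith)
      nlinarith
    linarith
  · simp only [hab, if_false]
    unfold E
    rw [Ex_const (fun i => wt_sum _ i)]

theorem hTDA (_hK : StKUB) (hL2 : StLO2) (hL3 : StLO3) (hM : StKMN) : StTDA := by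
  intro α β γ _ _ _ _ _ _ Λ ε δ d η n A B C x hΛ hε hε' hδ hδ' hη hn D
  have hγ : Nonempty γ := by
    rw [← Fintype.card_pos_iff, D.nγ]
    exact hn
  obtain ⟨c0⟩ := hγ
  constructor
  · intro a
    have hf : (fun σ : α × β → Option γ => ∑ b, (if (a, b) ∈ A then 1 - kA σ a b else 0))
        = fun σ => F2 σ (fun b => if (a, b) ∈ A then 1 else 0) 1 0 c0 a := by
      funext σ
      unfold F2
      apply Finset.sum_congr rfl
      intro b _
      by_cases h : (a, b) ∈ A <;> simp [h]
    refine ⟨univ.filter fun p => p.1 = a, ?_, ?_, ?_⟩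
    · rw [hf]
      exact hL2 α β γ _ 1 0 c0 a (fun b => by by_cases h : (a, b) ∈ A <;> simp [h])
        (by norm_num) le_rfl le_rfl (by norm_num)
    · rw [card_S1, D.nβ]
      omega
    · have h1 : E (fun a b c => ε * x a b c)
          (fun σ => ∑ b, (if (a, b) ∈ A then 1 - kA σ a b else 0))
          ≤ ∑ b, (if (a, b) ∈ A then 1 - ε / 2 else 0) := by
        unfold E
        rw [Ex_sum]
        exact Finset.sum_le_sum fun b _ => term_le hM hε hε' hδ' D a b
      have h2 : ∑ b, (if (a, b) ∈ A then 1 - ε / 2 else 0) = (1 - ε / 2) * d1 A a := by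
        rw [← Finset.sum_filter, Finset.sum_const, nsmul_eq_mul, card_row]
        ring
      linarith
  · intro b
    have hf : (fun σ : α × β → Option γ => ∑ a, (if (a, b) ∈ A then 1 - kA σ a b else 0))
        = fun σ => F3 σ (fun a => if (a, b) ∈ A then 1 else 0) 1 0 b c0 := by
      funext σ
      unfold F3
      apply Finset.sum_congr rfl
      intro a _
      by_cases h : (a, b) ∈ A <;> simp [h]
    refine ⟨univ.filter fun p => p.2 = b, ?_, ?_, ?_⟩
    · rw [hf]
      exact hL3 α β γ _ 1 0 b c0 (fun a => by by_cases h : (a, b) ∈ A <;> simp [h])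
        (by norm_num) le_rfl le_rfl (by norm_num)
    · rw [card_S2, D.nα]
      omega
    · have h1 : E (fun a b c => ε * x a b c)
          (fun σ => ∑ a, (if (a, b) ∈ A then 1 - kA σ a b else 0))
          ≤ ∑ a, (if (a, b) ∈ A then 1 - ε / 2 else 0) := by
        unfold E
        rw [Ex_sum]
        exact Finset.sum_le_sum fun a _ => term_le hM hε hε' hδ' D a b
      have h2 : ∑ a, (if (a, b) ∈ A then 1 - ε / 2 else 0) = (1 - ε / 2) * d2 A b := by
        rw [← Finset.sum_filter, Finset.sum_const, nsmul_eq_mul, card_col]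
        ring
      linarith

end Pool.Agent.Helper14.IA85
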